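import Pool.Agent.ZP3.Stmts

/-!
Squad ZP3, row RES: tame roots of unity in a residue class have bounded order.
-/

set_option autoImplicit false

namespace Pool.Agent.ZP3.H10

open Polynomial Pool.Agent.ZPT

noncomputable section

/-- RES -/
theorem res (wtm : WTMStmt) : RESStmt := by
  intro p hp K _ _ _ hK B hB
  obtain ⟨hB1, F, hF, hFB⟩ := hB
  have hp2 : 2 ≤ p := hp.two_le
  have hpF : 1 < p ^ F := Nat.one_lt_pow (by omega) hp.one_lt
  refine ⟨p ^ F - 1, by omega, fun x hx hxB => ?_⟩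
  obtain ⟨M, hM1, hM2, hM3⟩ := id hx
  have hx1 : ‖x‖ = 1 := by
    have h1 : ‖x‖ ^ M = 1 := by rw [← norm_pow, hM3, norm_one]
    exact (pow_eq_one_iff_of_nonneg (norm_nonneg _) (by omega)).1 h1
  have hx0 : x ≠ 0 := by
    intro h
    rw [h, norm_zero] at hx1
    norm_num at hx1
  -- powers stay close
  have hpow : ∀ n : ℕ, ‖x ^ n - B ^ n‖ < 1 := by
    intro n
    induction n with
    | zero => simp
    | succ n ih =>
      have h1 : x ^ (n + 1) - B ^ (n + 1) = x ^ n * (x - B) + (x ^ n - B ^ n) * B := by ring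
      rw [h1]
      refine (IsUltrametricDist.norm_add_le_max _ _).trans_lt (max_lt ?_ ?_)
      · rw [norm_mul, norm_pow, hx1, one_pow, one_mul]
        exact hxB
      · rw [norm_mul]
        exact (mul_le_of_le_one_right (norm_nonneg _) hB1).trans_lt ih
  have hpinv : (p : ℝ)⁻¹ < 1 := inv_lt_one_of_one_lt₀ (by exact_mod_cast hp.one_lt)
  have h1 : ‖x ^ p ^ F - x‖ < 1 := by
    have h2 : x ^ p ^ F - x = (x ^ p ^ F - B ^ p ^ F) + ((B ^ p ^ F - B) + (B - x)) := by ring
    rw [h2]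
    refine (IsUltrametricDist.norm_add_le_max _ _).trans_lt (max_lt (hpow _) ?_)
    refine (IsUltrametricDist.norm_add_le_max _ _).trans_lt (max_lt (hFB.trans_lt hpinv) ?_)
    rw [norm_sub_rev]
    exact hxB
  have h2 : x ^ p ^ F - x = x * (x ^ (p ^ F - 1) - 1) := by
    have h3 : x ^ p ^ F = x * x ^ (p ^ F - 1) := by
      rw [← pow_succ']
      congr 1
      omega
    rw [h3]
    ring
  rw [h2, norm_mul, hx1, one_mul] at h1
  refine wtm p hp K hK _ ⟨M, hM1, hM2, ?_⟩ h1
  rw [← pow_mul, mul_comm, pow_mul, hM3, one_pow]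

end

end Pool.Agent.ZP3.H10
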