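import Pool.Agent.ZP3.Stmts

/-!
Squad ZP3, row VR2: the second coordinate at the vertex.
-/

set_option autoImplicit false

namespace Pool.Agent.ZP3.H10

open Polynomial Pool.Agent.ZPT

noncomputable section

/-- VR2 -/
theorem vr2 (tat : TATStmt) (mth : MTHStmt) (urr : URRStmt) (urt : URTStmt) : VR2Stmt := by
  intro U hU p hp hp5 K _ _ _ _ _ hK e r A g₁ g₂ g₃ β π ε he1 hpe hA hg₂ hg₃ hβ hπ hπε hε1
    t x₃ q₁ q₂ q₃ P htn hq₂n hY hx₃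
  obtain ⟨hu1, T⟩ := tat U hU p hp hp5 K hK
  obtain ⟨Ring, Rat, ZZ, _, Inv⟩ := urr p hp K hK
  obtain ⟨urt1, urt2⟩ := urt p hp K hK
  set u : K := ((PowerSeries.coeff 1 U : ℚ) : K) with hu
  have hp0 : (p : K) ≠ 0 := Nat.cast_ne_zero.2 hp.ne_zero
  have hpn : ‖(p : K)‖ = (p : ℝ)⁻¹ := by
    have h := hK (p : ℚ)
    have := Fact.mk hp
    rw [padicNorm.padicNorm_p_of_prime] at h
    simpa using h
  have hpR : (0 : ℝ) < (p : ℝ) := Nat.cast_pos.2 hp.pos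
  have hpi : (0 : ℝ) < (p : ℝ)⁻¹ := inv_pos.2 hpR
  have hpi1 : (p : ℝ)⁻¹ < 1 := inv_lt_one_of_one_lt₀ (by exact_mod_cast hp.one_lt)
  -- `p⁻¹ ≤ ε`
  have hπn : ‖π‖ ^ e = (p : ℝ)⁻¹ := by rw [← norm_pow, hπ, hpn]
  have hε0 : 0 ≤ ε := (norm_nonneg _).trans hπε
  have hpε : (p : ℝ)⁻¹ ≤ ε := by
    rw [← hπn]
    exact (pow_le_of_le_one (norm_nonneg _) (hπε.trans hε1.le) (by omega)).trans hπε
  have hppε : (p : ℝ)⁻¹ * (p : ℝ)⁻¹ ≤ ε * (p : ℝ)⁻¹ := mul_le_mul_of_nonneg_right hpε hpi.le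
  have hπ0 : π ≠ 0 := by
    intro h
    rw [h, zero_pow (by omega)] at hπ
    exact hp0 hπ.symm
  -- `Y`
  obtain ⟨M, hM1, hM2, hM3⟩ := id hY
  have hYn : ‖q₃ / q₂‖ = 1 := by
    have h1 : ‖q₃ / q₂‖ ^ M = 1 := by rw [← norm_pow, hM3, norm_one]
    exact (pow_eq_one_iff_of_nonneg (norm_nonneg _) (by omega)).1 h1
  have hq₂0 : q₂ ≠ 0 := norm_pos_iff.1 P.q20
  have hq₃0 : q₃ ≠ 0 := norm_pos_iff.1 P.q30
  have hq₃n : ‖q₃‖ = (p : ℝ)⁻¹ := by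
    rw [norm_div, hq₂n, div_eq_one_iff_eq hpi.ne'] at hYn
    exact hYn
  have ht0 : t ≠ 0 := norm_pos_iff.1 P.t0
  -- first estimate
  have E3 : ‖(p : K) / q₃ - (g₃ + p * (β - u))‖ ≤ ε * (p : ℝ)⁻¹ := by
    have h1 : (p : K) / q₃ - (g₃ + p * (β - u)) =
        (p : K) * (q₃⁻¹ - (jv U q₃ - u)) + (p : K) * (x₃ - β) := by
      rw [P.e3]
      field_simp
      ring
    rw [h1]
    refine (IsUltrametricDist.norm_add_le_max _ _).trans (max_le ?_ ?_)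
    · rw [norm_mul, hpn]
      refine le_trans (mul_le_mul_of_nonneg_left ((T q₃ P.q30 P.q31).2.trans hq₃n.le) hpi.le) hppε
    · rw [norm_mul, hpn, mul_comm]
      exact mul_le_mul_of_nonneg_right hx₃ hpi.le
  have E2 : ‖(p : K) / q₂ - (p / t ^ e + g₂ - p * u)‖ ≤ ε * (p : ℝ)⁻¹ := by
    have h1 : (p : K) / q₂ - (p / t ^ e + g₂ - p * u) =
        (p : K) * (q₂⁻¹ - (jv U q₂ - u)) := by
      rw [P.e2]
      field_simp
    rw [h1, norm_mul, hpn]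
    exact le_trans (mul_le_mul_of_nonneg_left ((T q₂ P.q20 P.q21).2.trans hq₂n.le) hpi.le) hppε
  refine ⟨E3, ?_⟩
  set κ : K := g₃ + p * (β - u) with hκ
  set D : K := κ * (q₃ / q₂) - g₂ + p * u with hD
  -- the unit `τ = t / π`
  have hτe : (t / π) ^ e = t ^ e / p := by rw [div_pow, hπ]
  have hτen : ‖(t / π) ^ e‖ = 1 := by
    rw [hτe, norm_div, norm_pow, htn, hpn, div_self hpi.ne']
  have hτn : ‖t / π‖ = 1 := by
    rw [norm_pow] at hτen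
    exact (pow_eq_one_iff_of_nonneg (norm_nonneg _) (by omega)).1 hτen
  have hτ0 : t / π ≠ 0 := div_ne_zero ht0 hπ0
  have hρ1 : ε * (p : ℝ)⁻¹ < 1 := by
    calc ε * (p : ℝ)⁻¹ ≤ 1 * (p : ℝ)⁻¹ := mul_le_mul_of_nonneg_right hε1.le hpi.le
      _ < 1 := by rwa [one_mul]
  have hinv : ((t / π) ^ e)⁻¹ = p / t ^ e := by rw [hτe, inv_div]
  have hDτ : ‖D - ((t / π) ^ e)⁻¹‖ ≤ ε * (p : ℝ)⁻¹ := by
    have h1 : D - ((t / π) ^ e)⁻¹ = -((q₃ / q₂) * ((p : K) / q₃ - κ)) +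
        ((p : K) / q₂ - (p / t ^ e + g₂ - p * u)) := by
      have h2 : (p : K) / q₂ = (q₃ / q₂) * ((p : K) / q₃) := by
        field_simp
      rw [hinv, h2, hD]
      ring
    rw [h1]
    refine (IsUltrametricDist.norm_add_le_max _ _).trans (max_le ?_ E2)
    rw [norm_neg, norm_mul, hYn, one_mul]
    exact E3
  have hDn : ‖D‖ = 1 := by
    have h1 : ‖((t / π) ^ e)⁻¹‖ = 1 := by rw [norm_inv, hτen, inv_one]
    have h2 : D = (D - ((t / π) ^ e)⁻¹) + ((t / π) ^ e)⁻¹ := by ring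
    have h3 : ‖D - ((t / π) ^ e)⁻¹‖ ≠ ‖((t / π) ^ e)⁻¹‖ := by
      rw [h1]
      exact (hDτ.trans_lt hρ1).ne
    rw [h2, IsUltrametricDist.norm_add_eq_max_of_norm_ne_norm h3, h1]
    exact max_eq_right (hDτ.trans_lt hρ1).le
  have hD0 : D ≠ 0 := by
    intro h
    rw [h, norm_zero] at hDn
    exact zero_ne_one hDn
  -- `D` is unramified
  have uru : Ur p u := Rat _ (hU.pint p hp hp5 1)
  have urp : Ur p (p : K) := by
    have h := ZZ (p : ℤ)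
    rwa [Int.cast_natCast] at h
  have urκ : Ur p κ := (Ring _ _ hg₃.1 (Ring _ _ urp (Ring _ _ hβ uru).2.2.2).2.1).1
  have urY : Ur p (q₃ / q₂) := (urt1 _ hY).1
  have urD : Ur p D :=
    (Ring _ _ (Ring _ _ (Ring _ _ urκ urY).2.1 hg₂.1).2.2.2 (Ring _ _ urp uru).2.1).1
  have uuDi : Uu p D⁻¹ := Inv _ ⟨urD, hDn⟩
  -- the root
  obtain ⟨m, hm1, hm2⟩ := mth p hp K hK e D⁻¹ (t / π) (ε * (p : ℝ)⁻¹) he1 hpe hτ0 hρ1 (by
    rw [hτen, mul_one]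
    have hτe0 : (t / π) ^ e ≠ 0 := pow_ne_zero _ hτ0
    have h1 : D⁻¹ - (t / π) ^ e = -(D⁻¹ * ((t / π) ^ e * (D - ((t / π) ^ e)⁻¹))) := by
      rw [mul_sub, mul_inv_cancel₀ hτe0, mul_sub, mul_left_comm, inv_mul_cancel₀ hD0]
      ring
    rw [h1, norm_neg, norm_mul, norm_mul, norm_inv, hDn, hτen, inv_one, one_mul, one_mul]
    exact hDτ)
  have hmn : ‖m‖ = 1 := by
    have h1 : ‖m‖ ^ e = 1 := by rw [← norm_pow, hm1, norm_inv, hDn, inv_one]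
    exact (pow_eq_one_iff_of_nonneg (norm_nonneg _) (by omega)).1 h1
  refine ⟨m, urt2 m e he1 hpe hmn (by rw [hm1]; exact uuDi.1), ?_, ?_⟩
  · rw [norm_sub_rev]
    rwa [hτn, mul_one] at hm2
  · rw [hm1, inv_mul_cancel₀ hD0]

end

end Pool.Agent.ZP3.H10
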